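import Pool.Agent.Y662.FIB.Rate

/-!
MP_d67da9_mp, Q1 in a stronger form: the dimension of the spectrum of the Fibonacci Hamiltonian is
non-increasing in the coupling, and every band of every periodic approximant shrinks strictly, at a
rate which does not depend on the approximant or on the band.
-/

set_option autoImplicit false

open Set MeasureTheory

namespace Pool.Agent.Results.MP_d67da9_mp.FibonacciMonotone

/-- The Hilbert space `ℓ²(ℤ)`. -/
abbrev L2Z : Type := lp (fun _ : ℤ => ℂ) 2

/-- Bounded operators on `ℓ²(ℤ)`. -/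
abbrev Op : Type := L2Z →L[ℂ] L2Z

/-- The (real) spectrum of a bounded operator. -/
def spec {X : Type} [NormedAddCommGroup X] [InnerProductSpace ℂ X] (H : X →L[ℂ] X) : Set ℝ :=
  {E : ℝ | (E : ℂ) ∈ spectrum ℂ H}

/-- `α = (√5 - 1)/2` -/
noncomputable def alpha : ℝ := (Real.sqrt 5 - 1) / 2

/-- The Fibonacci potential `lam χ_{[1-α,1)}(nα + ω mod 1)`. -/
noncomputable def V (lam ω : ℝ) (n : ℤ) : ℝ :=
  if 1 - alpha ≤ Int.fract ((n : ℝ) * alpha + ω) then lam else 0

/-- `T` is the Fibonacci Hamiltonian with coupling `lam` and phase `ω`: the bounded operator on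
`ℓ²(ℤ)` with `(Tψ)(n) = ψ(n+1) + ψ(n-1) + lam χ_{[1-α,1)}(nα + ω mod 1) ψ(n)`. -/
def IsFibonacciHamiltonian (lam ω : ℝ) (T : Op) : Prop :=
  ∀ (ψ : L2Z) (n : ℤ), T ψ n = ψ (n + 1) + ψ (n - 1) + (V lam ω n : ℂ) * ψ n

/-- half traces of the transfer matrices over `F_n` sites:
`x_0 = 1, x_1 = E/2, x_2 = (E - lam)/2, x_{n+3} = 2 x_{n+2} x_{n+1} - x_n` -/
noncomputable def halfTrace (lam E : ℝ) : ℕ → ℝ
  | 0 => 1
  | 1 => E / 2
  | 2 => (E - lam) / 2
  | n + 3 => 2 * halfTrace lam E (n + 2) * halfTrace lam E (n + 1) - halfTrace lam E n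

/-- spectrum of the `n`-th periodic approximant (period `F_n`) -/
def approx (lam : ℝ) (n : ℕ) : Set ℝ := {E : ℝ | |halfTrace lam E n| ≤ 1}

/-- the exponent of the rate; `rateExp` is strictly increasing on `(0, ∞)` with derivative
`(2/9) lam / (4 + lam)^2`, unbounded -/
noncomputable def rateExp (lam : ℝ) : ℝ := 2 / 9 * (Real.log (4 + lam) + 4 / (4 + lam))

/-- the bands of the `n`-th approximant as functions of the coupling -/
structure Bands (n : ℕ) (u v : Fin (Nat.fib n) → ℝ → ℝ) : Prop where
  /-- the bands are nondegenerate intervals -/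
  lt : ∀ lam : ℝ, 0 < lam → ∀ j, u j lam < v j lam
  /-- they are disjoint and numbered from left to right -/
  ordered : ∀ lam : ℝ, 0 < lam → ∀ i j, i < j → v i lam < u j lam
  /-- their union is the spectrum of the approximant -/
  union : ∀ lam : ℝ, 0 < lam → approx lam n = ⋃ j, Icc (u j lam) (v j lam)
  /-- their ends are differentiable functions of the coupling -/
  smooth : ∀ j, DifferentiableOn ℝ (u j) (Ioi 0) ∧ DifferentiableOn ℝ (v j) (Ioi 0)

open Pool.Agent.W745.Fib Pool.Agent.Y662.FIB

lemma halfTrace_eq (lam E : ℝ) (n : ℕ) : halfTrace lam E n = tr lam n E := by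
  revert n
  apply ind3
  · rw [tr_zero]; rfl
  · rw [tr_one]; rfl
  · rw [tr_two]; rfl
  · intro n h0 h1 h2
    rw [tr_rec, ← h0, ← h1, ← h2]; rfl

lemma approx_eq (lam : ℝ) (n : ℕ) : approx lam n = {E : ℝ | |tr lam n E| ≤ 1} := by
  ext E
  show |halfTrace lam E n| ≤ 1 ↔ |tr lam n E| ≤ 1
  rw [halfTrace_eq]

lemma isFib_iff {lam ω : ℝ} {T : Op} : IsFibonacciHamiltonian lam ω T ↔ IsFib lam ω T :=
  Iff.rfl

lemma spec_eq {lam ω : ℝ} (h : 0 < lam) {T : Op} (hT : IsFibonacciHamiltonian lam ω T) : spec T = Pool.Agent.W811.Stu.Sp lam one :=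
  op_final lam h ω T hT

lemma rateExp_lt {a b : ℝ} (ha : 0 < a) (hab : a < b) : rateExp a < rateExp b := by
  have hm : StrictMonoOn hh (Ioi 0) := by
    apply strictMonoOn_of_deriv_pos (convex_Ioi 0)
    · intro l hl
      exact (hh_deriv hl).continuousAt.continuousWithinAt
    · intro l hl
      have hl' : (0 : ℝ) < l := interior_subset hl
      rw [(hh_deriv hl').deriv]
      positivity
  exact hm (mem_Ioi.2 ha) (mem_Ioi.2 (ha.trans hab)) hab

/-- **Monotonicity of the dimension, and uniform strict shrinking of all bands.** -/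
theorem result :
    -- the Fibonacci Hamiltonians exist
    (∀ lam ω : ℝ, ∃ T : Op, IsFibonacciHamiltonian lam ω T) ∧
    -- for every coupling and every phase the spectrum is cut out by the periodic approximants
    (∀ lam : ℝ, 0 < lam → ∀ (ω : ℝ) (T : Op), IsFibonacciHamiltonian lam ω T →
      spec T = ⋂ n : ℕ, (approx lam (n + 1) ∪ approx lam (n + 2))) ∧
    -- the Hausdorff dimension of the spectrum does not increase with the coupling
    (∀ a b : ℝ, 0 < a → a ≤ b → ∀ (ω ω' : ℝ) (T T' : Op), IsFibonacciHamiltonian a ω T →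
      IsFibonacciHamiltonian b ω' T' → dimH (spec T') ≤ dimH (spec T)) ∧
    -- every band of every approximant shrinks strictly, at a uniform rate
    ∀ n : ℕ, 3 ≤ n →
      (∃ u v : Fin (Nat.fib n) → ℝ → ℝ, Bands n u v ∧ ∀ j,
        StrictAntiOn (fun lam => v j lam - u j lam) (Ioi 0) ∧
        ∀ a b : ℝ, 0 < a → a ≤ b →
          v j b - u j b ≤ Real.exp (rateExp a - rateExp b) * (v j a - u j a)) ∧
      -- and so does the Lebesgue measure of every approximant
      ∀ a b : ℝ, 0 < a → a < b →
        volume (approx b n) ≤ ENNReal.ofReal (Real.exp (rateExp a - rateExp b)) *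
          volume (approx a n) ∧
        volume (approx b n) < volume (approx a n) := by
  refine ⟨fun lam ω => Pool.Agent.W753.FM.exists_fib lam ω, ?_, ?_, ?_⟩
  · intro lam hl ω T hT
    rw [spec_eq hl hT]
    ext E
    rw [Pool.Agent.W753.FM.mem_Sp]
    simp only [mem_iInter, mem_union, approx_eq, mem_setOf_eq]
  · intro a b ha hab ω ω' T T' hT hT'
    rw [spec_eq ha hT, spec_eq (lt_of_lt_of_le ha hab) hT']
    exact an_final a b ha hab
  · intro n hn
    obtain ⟨u, v, hE, hord, huni⟩ := bands (n := n) (by omega)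
    have hvol : ∀ l : ℝ, 0 < l → volume (approx l n) =
        ENNReal.ofReal (∑ j, (v j l - u j l)) := by
      intro l hl
      rw [approx_eq, huni l hl, measure_iUnion]
      · simp only [Real.volume_Icc]
        rw [tsum_fintype, ENNReal.ofReal_sum_of_nonneg]
        intro j _
        have := (hE j).lt l hl
        linarith
      · intro i j hij
        rw [Function.onFun, Set.disjoint_left]
        intro x hx hx'
        rcases lt_or_gt_of_ne hij with h | h
        · have := hord l hl i j h
          linarith [hx.2, hx'.1]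
        · have := hord l hl j i h
          linarith [hx'.2, hx.1]
      · intro j
        exact measurableSet_Icc
    have hpos : ∀ l : ℝ, 0 < l → 0 < ∑ j, (v j l - u j l) := by
      intro l hl
      have hf : 0 < Nat.fib n := Nat.fib_pos.2 (by omega)
      haveI : Nonempty (Fin (Nat.fib n)) := ⟨⟨0, hf⟩⟩
      exact Finset.sum_pos (fun j _ => by have := (hE j).lt l hl; linarith)
        Finset.univ_nonempty
    refine ⟨⟨u, v, ⟨fun l hl j => (hE j).lt l hl, hord, fun l hl => ?_, fun j =>
      ⟨fun l hl => ((hE j).hu l hl).differentiableAt.differentiableWithinAt,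
        fun l hl => ((hE j).hv l hl).differentiableAt.differentiableWithinAt⟩⟩,
      fun j => ⟨shrink hn (hE j), fun a b ha hab => rate hn (hE j) ha hab⟩⟩, ?_⟩
    · rw [approx_eq]; exact huni l hl
    · intro a b ha hab
      have hb : 0 < b := ha.trans hab
      have h1 : ∑ j, (v j b - u j b) ≤
          Real.exp (rateExp a - rateExp b) * ∑ j, (v j a - u j a) := by
        rw [Finset.mul_sum]
        exact Finset.sum_le_sum (fun j _ => rate hn (hE j) ha hab.le)
      have h2 : Real.exp (rateExp a - rateExp b) < 1 := by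
        rw [Real.exp_lt_one_iff]
        linarith [rateExp_lt ha hab]
      rw [hvol a ha, hvol b hb]
      constructor
      · rw [← ENNReal.ofReal_mul (Real.exp_pos _).le]
        exact ENNReal.ofReal_le_ofReal h1
      · rw [ENNReal.ofReal_lt_ofReal_iff (hpos a ha)]
        have h3 := hpos a ha
        nlinarith

end Pool.Agent.Results.MP_d67da9_mp.FibonacciMonotone
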